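import Pool.Agent.Q138.PD.PGL

set_option autoImplicit false

/-!
# Closure properties of classes of groups all of whose subgroups of type `T` have a property `Q`
-/

namespace Pool.Agent.Q138.PD

open Filter

/-- The restricted direct product. -/
def FinSupp {I : Type} (G : I → Type) [∀ i, Group (G i)] : Subgroup (∀ i, G i) where
  carrier := {x | {i | x i ≠ 1}.Finite}
  one_mem' := by simp
  mul_mem' {x y} hx hy := by
    refine (hx.union hy).subset fun i hi => ?_
    by_contra hcon
    simp only [Set.mem_union, Set.mem_ofPred_eq, not_or, not_not] at hcon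
    apply hi
    show x i * y i = 1
    rw [hcon.1, hcon.2, one_mul]
  inv_mem' {x} hx := by
    refine hx.subset fun i hi hcon => hi ?_
    show (x i)⁻¹ = 1
    rw [hcon, inv_one]

/-- All groups of type `T` which embed in `G` have the property `Q`. -/
def AllHave (T Q : (H : Type) → Group H → Prop) (G : Type) [Group G] : Prop :=
  ∀ (H : Type) [hH : Group H], T H hH → ∀ f : H →* G, Function.Injective f → Q H hH

theorem countable_of_fg {H : Type} [Group H] (h : Group.FG H) : Countable H := by
  obtain ⟨α, hα, φ, hφ⟩ := Group.fg_iff_exists_freeGroup_hom_surjective_finite.mp h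
  exact hφ.countable

theorem NI.factor {H : Type} [Group H] [Nontrivial H] (hfg : Group.FG H) (hNI : NI H) {I : Type}
    {G : I → Type} [∀ i, Group (G i)] (f : H →* ∀ i, G i) (hf : Function.Injective f)
    (hs : ∀ x, {i | f x i ≠ 1}.Finite) : ∃ i, Function.Injective fun x => f x i := by
  classical
  obtain ⟨S, hS⟩ := hfg.out
  let J : Finset I := S.biUnion fun s => (hs s).toFinset
  have h1 : ∀ x : H, ∀ i, i ∉ J → f x i = 1 := by
    intro x i hi
    have hx : x ∈ Subgroup.closure (S : Set H) := by rw [hS]; exact Subgroup.mem_top x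
    induction hx using Subgroup.closure_induction with
    | mem s hs' =>
      by_contra hcon
      exact hi (Finset.mem_biUnion.mpr ⟨s, hs', (hs s).mem_toFinset.mpr hcon⟩)
    | one => rw [map_one]; rfl
    | mul a b _ _ ha hb => rw [map_mul, Pi.mul_apply, ha, hb, one_mul]
    | inv a _ ha => rw [map_inv, Pi.inv_apply, ha, inv_one]
  let N : I → Subgroup H := fun i => ((Pi.evalMonoidHom G i).comp f).ker
  obtain ⟨i, -, hi⟩ := NI.finset hNI J N (fun i => inferInstance) (by
    rw [eq_bot_iff]
    intro x hx
    rw [Subgroup.mem_bot]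
    apply hf
    rw [map_one]
    funext i
    by_cases hiJ : i ∈ J
    · have h2 : x ∈ N i := by
        have := (Subgroup.mem_iInf.mp ((Subgroup.mem_iInf.mp hx) i)) hiJ
        exact this
      exact h2
    · exact h1 x i hiJ)
  exact ⟨i, (MonoidHom.ker_eq_bot_iff ((Pi.evalMonoidHom G i).comp f)).mp hi⟩

theorem jointly {H : Type} [Group H] {I : Type} {G : I → Type} [∀ i, Group (G i)]
    (f : H →* ∀ i, G i) (hf : Function.Injective f) (x : H) (hx : x ≠ 1) :
    ∃ i, ((Pi.evalMonoidHom G i).comp f) x ≠ 1 := by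
  by_contra hcon
  push Not at hcon
  apply hx
  apply hf
  rw [map_one]
  funext i
  exact hcon i

/-- A nontrivial solvable normal subgroup contains a nontrivial abelian normal subgroup. -/
theorem solvable_normal {H : Type} [Group H] (K : Subgroup H) [K.Normal] (hK : Group.IsSolvable K)
    (hne : K ≠ ⊥) : ∃ A : Subgroup H, A.Normal ∧ A ≠ ⊥ ∧ ∀ a ∈ A, ∀ b ∈ A, a * b = b * a := by
  classical
  have h0 := hK.solvable
  have hspec := Nat.find_spec h0
  have hmin : ∀ m, m < Nat.find h0 → derivedSeries K m ≠ ⊥ := fun m hm => Nat.find_min h0 hm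
  rcases hk : Nat.find h0 with _ | k
  · rw [hk, derivedSeries_zero] at hspec
    exfalso
    apply hne
    rw [eq_bot_iff]
    intro x hx
    have : (⟨x, hx⟩ : K) ∈ (⊥ : Subgroup K) := by rw [← hspec]; trivial
    rw [Subgroup.mem_bot] at this
    exact (Subgroup.mem_bot).mpr (congrArg Subtype.val this)
  · rw [hk, derivedSeries_succ] at hspec
    refine ⟨(derivedSeries K k).map K.subtype, inferInstance, ?_, ?_⟩
    · intro hcon
      apply hmin k (by omega)
      rwa [Subgroup.map_eq_bot_iff_of_injective _ K.subtype_injective] at hcon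
    · rintro _ ⟨a, ha, rfl⟩ _ ⟨b, hb, rfl⟩
      have h1 := Subgroup.commutator_mem_commutator ha hb
      rw [hspec, Subgroup.mem_bot, commutatorElement_eq_one_iff_mul_comm] at h1
      rw [← map_mul, h1, map_mul]

/-- The groups of type `T` are finitely generated, nontrivial, and satisfy `NI`. -/
def Tame (T : (H : Type) → Group H → Prop) : Prop :=
  ∀ (H : Type) [hH : Group H], T H hH → Nontrivial H ∧ Group.FG H ∧ NI H

section

variable {T Q : (H : Type) → Group H → Prop} (hT : Tame T)
include hT

theorem allHave_prod {I : Type} {G : I → Type} [∀ i, Group (G i)]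
    (hG : ∀ i, AllHave T Q (G i)) : AllHave T Q (FinSupp G) := by
  intro H _ h f hf
  obtain ⟨hn, hfg, hNI⟩ := hT H h
  obtain ⟨i, hi⟩ := NI.factor hfg hNI ((FinSupp G).subtype.comp f)
    ((FinSupp G).subtype_injective.comp hf) (fun x => (f x).2)
  exact hG i H h ((Pi.evalMonoidHom G i).comp ((FinSupp G).subtype.comp f)) hi

theorem allHave_union {G : Type} [Group G] {ι : Type} {S : ι → Subgroup G}
    (hdir : Directed (· ≤ ·) S) (hS : ∀ g, ∃ i, g ∈ S i) (hW : ∀ i, AllHave T Q (S i)) :
    AllHave T Q G := by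
  intro H _ h f hf
  obtain ⟨hn, hfg, hNI⟩ := hT H h
  obtain ⟨T', hT'⟩ := hfg.out
  obtain ⟨i, hi⟩ : ∃ i, ∀ t ∈ T', f t ∈ S i := by
    classical
    have hne : Nonempty ι := ⟨(hS 1).choose⟩
    choose j hj using fun t => hS (f t)
    obtain ⟨z, hz⟩ := hdir.finset_le (T'.image j)
    exact ⟨z, fun t ht => hz (j t) (Finset.mem_image_of_mem j ht) (hj t)⟩
  have hall : ∀ x, f x ∈ S i := by
    intro x
    have hx : x ∈ Subgroup.closure (T' : Set H) := by rw [hT']; exact Subgroup.mem_top x
    have h3 : Subgroup.closure (T' : Set H) ≤ (S i).comap f := by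
      rw [Subgroup.closure_le]
      exact hi
    exact h3 hx
  exact hW i H h (f.codRestrict (S i) hall) fun x y hxy =>
    hf (congrArg Subtype.val hxy)

theorem allHave_ext {G : Type} [Group G] {ι : Type} [Finite ι] {N : ι → Subgroup G}
    [∀ i, (N i).Normal] (hsm : ∀ (H : Type) [hH : Group H], T H hH → ∀ f : H →* G,
      Function.Injective f → (⨅ i, N i : Subgroup G).comap f = ⊥ ∨ Q H hH)
    (hW : ∀ i, AllHave T Q (G ⧸ N i)) : AllHave T Q G := by
  intro H _ h f hf
  obtain ⟨hn, hfg, hNI⟩ := hT H h
  rcases hsm H h f hf with hcomap | hQ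
  · have := Fintype.ofFinite ι
    obtain ⟨i, -, hi⟩ := NI.finset hNI Finset.univ
      (fun i => ((QuotientGroup.mk' (N i)).comp f).ker) (fun i => inferInstance) (by
        rw [eq_bot_iff, ← hcomap]
        intro x hx
        rw [Subgroup.mem_comap, Subgroup.mem_iInf]
        intro i
        have h2 := (Subgroup.mem_iInf.mp ((Subgroup.mem_iInf.mp hx) i)) (Finset.mem_univ i)
        exact (QuotientGroup.eq_one_iff _).mp h2)
    exact hW i H h _ ((MonoidHom.ker_eq_bot_iff ((QuotientGroup.mk' (N i)).comp f)).mp hi)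
  · exact hQ

end

end Pool.Agent.Q138.PD
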