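import Mathlib

set_option autoImplicit false

/-!
# Torsion-free groups without free abelian subgroups of rank two: normal subgroups intersect
-/

namespace Pool.Agent.Q138.PD

open Filter

variable {H : Type} [Group H]

/-- The homomorphism `(m, n) ↦ a ^ m b ^ n` for commuting `a`, `b`. -/
def pairHom {a b : H} (hab : a * b = b * a) : Multiplicative (ℤ × ℤ) →* H where
  toFun z := a ^ z.toAdd.1 * b ^ z.toAdd.2
  map_one' := by simp
  map_mul' z w := by
    have h : Commute a b := hab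
    have h1 : b ^ z.toAdd.2 * a ^ w.toAdd.1 = a ^ w.toAdd.1 * b ^ z.toAdd.2 :=
      ((h.zpow_zpow w.toAdd.1 z.toAdd.2).eq).symm
    show a ^ (z.toAdd.1 + w.toAdd.1) * b ^ (z.toAdd.2 + w.toAdd.2) = _
    rw [zpow_add, zpow_add]
    calc a ^ z.toAdd.1 * a ^ w.toAdd.1 * (b ^ z.toAdd.2 * b ^ w.toAdd.2)
        = a ^ z.toAdd.1 * (a ^ w.toAdd.1 * b ^ z.toAdd.2) * b ^ w.toAdd.2 := by group
      _ = a ^ z.toAdd.1 * (b ^ z.toAdd.2 * a ^ w.toAdd.1) * b ^ w.toAdd.2 := by rw [h1]
      _ = _ := by group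

/-- Nontrivial normal subgroups intersect nontrivially. -/
theorem normal_inter (htf : ∀ g : H, IsOfFinOrder g → g = 1)
    (hat : ¬ ∃ f : Multiplicative (ℤ × ℤ) →* H, Function.Injective f) (A B : Subgroup H)
    [A.Normal] [B.Normal] (hAB : A ⊓ B = ⊥) : A = ⊥ ∨ B = ⊥ := by
  by_contra hcon
  rw [not_or] at hcon
  obtain ⟨⟨a, ha⟩, ha1'⟩ := Subgroup.ne_bot_iff_exists_ne_one.mp hcon.1
  obtain ⟨⟨b, hb⟩, hb1'⟩ := Subgroup.ne_bot_iff_exists_ne_one.mp hcon.2
  have ha1 : a ≠ 1 := fun h => ha1' (Subtype.ext h)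
  have hb1 : b ≠ 1 := fun h => hb1' (Subtype.ext h)
  have hd : Disjoint A B := disjoint_iff.mpr hAB
  have hcomm : a * b = b * a := Subgroup.commute_of_normal_of_disjoint A B inferInstance
    inferInstance hd a b ha hb
  refine hat ⟨pairHom hcomm, ?_⟩
  have hz : ∀ (c : H) (_ : c ≠ 1) (m : ℤ), c ^ m = 1 → m = 0 := by
    intro c hc m hm
    by_contra h0
    exact hc (htf c (isOfFinOrder_iff_zpow_eq_one.mpr ⟨m, h0, hm⟩))
  rw [injective_iff_map_eq_one]
  intro z hz1
  have h1 : a ^ z.toAdd.1 * b ^ z.toAdd.2 = 1 := hz1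
  have h2 : a ^ z.toAdd.1 ∈ A ⊓ B := by
    refine ⟨A.zpow_mem ha _, ?_⟩
    rw [eq_inv_of_mul_eq_one_left h1]
    exact B.inv_mem (B.zpow_mem hb _)
  rw [hAB, Subgroup.mem_bot] at h2
  rw [h2, one_mul] at h1
  have k1 := hz a ha1 _ h2
  have k2 := hz b hb1 _ h1
  have : z.toAdd = 0 := Prod.ext k1 k2
  exact toAdd_eq_zero.mp this

/-- Finitely many normal subgroups. -/
theorem normal_finset (htf : ∀ g : H, IsOfFinOrder g → g = 1)
    (hat : ¬ ∃ f : Multiplicative (ℤ × ℤ) →* H, Function.Injective f) {ι : Type*}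
    (s : Finset ι) (N : ι → Subgroup H) (hN : ∀ i, (N i).Normal) (hs : ⨅ i ∈ s, N i = ⊥)
    [Nontrivial H] : ∃ i ∈ s, N i = ⊥ := by
  classical
  induction s using Finset.induction_on with
  | empty =>
    simp only [Finset.notMem_empty, iInf_false, iInf_top] at hs
    exact absurd hs top_ne_bot
  | insert a s ha ih =>
    rw [Finset.iInf_insert] at hs
    have : (N a).Normal := hN a
    have : (⨅ i ∈ s, N i).Normal := by
      refine Subgroup.normal_iInf_normal fun i => ?_
      exact Subgroup.normal_iInf_normal fun _ => hN i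
    rcases normal_inter htf hat _ _ hs with h | h
    · exact ⟨a, Finset.mem_insert_self _ _, h⟩
    · obtain ⟨i, hi, hi'⟩ := ih h
      exact ⟨i, Finset.mem_insert_of_mem hi, hi'⟩

/-- A jointly injective family of homomorphisms is injective along an ultrafilter. -/
theorem exists_ultra (htf : ∀ g : H, IsOfFinOrder g → g = 1)
    (hat : ¬ ∃ f : Multiplicative (ℤ × ℤ) →* H, Function.Injective f) [Nontrivial H] {I : Type*}
    {K : I → Type*} [∀ i, Group (K i)] (φ : ∀ i, H →* K i)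
    (hφ : ∀ h, h ≠ 1 → ∃ i, φ i h ≠ 1) :
    ∃ U : Ultrafilter I, ∀ h, h ≠ 1 → ∀ᶠ i in (U : Filter I), φ i h ≠ 1 := by
  set F : Filter I := ⨅ h : {h : H // h ≠ 1}, 𝓟 {i | φ i h ≠ 1} with hF
  have hne : F.NeBot := by
    have : Nonempty {h : H // h ≠ 1} := by
      obtain ⟨h, hh⟩ := exists_ne (1 : H)
      exact ⟨⟨h, hh⟩⟩
    refine iInf_neBot_of_directed' ?_ ?_
    · rintro ⟨a, ha⟩ ⟨b, hb⟩
      have h1 : (Subgroup.normalClosure {a} ⊓ Subgroup.normalClosure {b} : Subgroup H) ≠ ⊥ := by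
        intro h0
        rcases normal_inter htf hat _ _ h0 with h | h
        · exact ha ((Subgroup.mem_bot).mp (h ▸ Subgroup.subset_normalClosure rfl))
        · exact hb ((Subgroup.mem_bot).mp (h ▸ Subgroup.subset_normalClosure rfl))
      obtain ⟨c, hc⟩ := Subgroup.ne_bot_iff_exists_ne_one.mp h1
      refine ⟨⟨c, fun h => hc (Subtype.ext h)⟩, ?_, ?_⟩
      · show 𝓟 _ ≤ 𝓟 _
        rw [principal_mono]
        intro i hi hi'
        apply hi
        have h2 : Subgroup.normalClosure {a} ≤ (φ i).ker := by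
          refine Subgroup.normalClosure_le_normal ?_
          rintro _ rfl
          exact hi'
        exact h2 c.2.1
      · show 𝓟 _ ≤ 𝓟 _
        rw [principal_mono]
        intro i hi hi'
        apply hi
        have h2 : Subgroup.normalClosure {b} ≤ (φ i).ker := by
          refine Subgroup.normalClosure_le_normal ?_
          rintro _ rfl
          exact hi'
        exact h2 c.2.2
    · rintro ⟨h, hh⟩
      rw [principal_neBot_iff]
      exact hφ h hh
  refine ⟨Ultrafilter.of F, fun h hh => ?_⟩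
  have h1 : F ≤ 𝓟 {i | φ i h ≠ 1} := iInf_le (fun h : {h : H // h ≠ 1} => 𝓟 {i | φ i h ≠ 1}) ⟨h, hh⟩
  exact (Ultrafilter.of_le F).trans h1 (mem_principal_self _)

end Pool.Agent.Q138.PD
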