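import Pool.Agent.Q138.PD.Grp

set_option autoImplicit false

/-!
# Residually linear groups and ultraproducts
-/

namespace Pool.Agent.Q138.PD

open Filter Cardinal

/-- A field of characteristic zero of cardinality at most the continuum embeds in `ℂ`. -/
theorem exists_toComplex (L : Type) [Field L] [Algebra ℂ L] (hL : #L ≤ 𝔠) : Nonempty (L →+* ℂ) := by
  have hchar : CharZero L := charZero_of_injective_algebraMap (algebraMap ℂ L).injective
  let E := AlgebraicClosure L
  have hcharE : CharZero E := charZero_of_injective_algebraMap (algebraMap L E).injective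
  have h1 : #E ≤ 𝔠 := by
    refine (Algebra.IsAlgebraic.cardinalMk_le_max L E).trans ?_
    exact max_le hL aleph0_le_continuum
  have h2 : 𝔠 ≤ #E := by
    rw [← mk_complex]
    have h3 : Function.Injective ((algebraMap L E).comp (algebraMap ℂ L)) := RingHom.injective _
    exact mk_le_of_injective h3
  have h4 : #E = 𝔠 := le_antisymm h1 h2
  have h5 : Nonempty (E ≃ ℂ) := Cardinal.eq.mp (by rw [h4, mk_complex])
  obtain ⟨e⟩ := IsAlgClosed.ringEquiv_of_equiv_of_charZero (K := E) (L := ℂ)
    (by rw [h4]; exact aleph0_lt_continuum) h5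
  exact ⟨(e : E →+* ℂ).comp (algebraMap L E)⟩

/-- Pass to the ultraproduct. -/
noncomputable def germHom {H J : Type} [Group H] (n : ℕ) (U : Ultrafilter J)
    (φ : J → H →* GL (Fin n) ℂ) : H →* Matrix (Fin n) (Fin n) ((U : Filter J).Germ ℂ) where
  toFun h := Matrix.of fun a b => ((fun j => (φ j h : Matrix (Fin n) (Fin n) ℂ) a b : J → ℂ) :
    (U : Filter J).Germ ℂ)
  map_one' := by
    ext a b
    rw [Matrix.of_apply]
    by_cases hab : a = b
    · subst hab
      have : (fun j => ((φ j 1 : GL (Fin n) ℂ) : Matrix (Fin n) (Fin n) ℂ) a a) =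
          fun _ => (1 : ℂ) := by
        funext j
        rw [map_one, Units.val_one, Matrix.one_apply_eq]
      rw [this, Matrix.one_apply_eq]
      rfl
    · have : (fun j => ((φ j 1 : GL (Fin n) ℂ) : Matrix (Fin n) (Fin n) ℂ) a b) =
          fun _ => (0 : ℂ) := by
        funext j
        rw [map_one, Units.val_one, Matrix.one_apply_ne hab]
      rw [this, Matrix.one_apply_ne hab]
      rfl
  map_mul' g h := by
    ext a b
    rw [Matrix.of_apply, Matrix.mul_apply]
    simp only [Matrix.of_apply]
    have h1 : (fun j => ((φ j (g * h) : GL (Fin n) ℂ) : Matrix (Fin n) (Fin n) ℂ) a b) =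
        ∑ c : Fin n, (fun j => (φ j g : Matrix (Fin n) (Fin n) ℂ) a c) *
          (fun j => (φ j h : Matrix (Fin n) (Fin n) ℂ) c b) := by
      funext j
      rw [map_mul, Units.val_mul, Matrix.mul_apply, Finset.sum_apply]
      rfl
    rw [h1]
    have h2 := map_sum (Germ.coeRingHom (R := ℂ) (U : Filter J))
      (fun c : Fin n => (fun j => (φ j g : Matrix (Fin n) (Fin n) ℂ) a c) *
          (fun j => (φ j h : Matrix (Fin n) (Fin n) ℂ) c b)) Finset.univ
    exact h2.trans (Finset.sum_congr rfl fun c _ => map_mul (Germ.coeRingHom (U : Filter J)) _ _)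

/-- Linearity of residually linear groups. -/
theorem exists_linear {H : Type} [Group H] [Countable H] (htf : ∀ g : H, IsOfFinOrder g → g = 1)
    (hat : ¬ ∃ f : Multiplicative (ℤ × ℤ) →* H, Function.Injective f) (n : ℕ) {I : Type}
    (φ : I → H →* GL (Fin n) ℂ) (hφ : ∀ h, h ≠ 1 → ∃ i, φ i h ≠ 1) :
    ∃ ψ : H →* GL (Fin n) ℂ, Function.Injective ψ := by
  classical
  rcases subsingleton_or_nontrivial H with hH | hH
  · exact ⟨1, Function.injective_of_subsingleton _⟩
  have hI : Nonempty I := by
    obtain ⟨h, hh⟩ := exists_ne (1 : H)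
    exact ⟨(hφ h hh).choose⟩
  choose! i hi using hφ
  let J := {h : H // h ≠ 1}
  obtain ⟨U, hU⟩ := exists_ultra htf hat (fun j : J => φ (i j)) fun h hh => ⟨⟨h, hh⟩, hi h hh⟩
  let L := (U : Filter J).Germ ℂ
  have hcard : #L ≤ 𝔠 := by
    have h1 : #L ≤ #(J → ℂ) := mk_le_of_surjective (f := fun x : J → ℂ => (x : L)) (by
      intro x
      induction x using Germ.inductionOn with
      | h f => exact ⟨f, rfl⟩)
    refine h1.trans ?_
    rw [← power_def, mk_complex]
    calc 𝔠 ^ #J ≤ 𝔠 ^ ℵ₀ := power_le_power_left continuum_ne_zero (mk_le_aleph0)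
      _ = 𝔠 := continuum_power_aleph0
  have hal : Algebra ℂ L := RingHom.toAlgebra
    ((Germ.coeRingHom (U : Filter J)).comp (Pi.constRingHom J ℂ))
  obtain ⟨e⟩ := @exists_toComplex L _ hal hcard
  let F := (germHom n U fun j : J => φ (i j)).toHomUnits
  refine ⟨(Matrix.GeneralLinearGroup.map e).comp F, ?_⟩
  rw [injective_iff_map_eq_one]
  intro h hh
  by_contra hne
  have h1 : F h = 1 := by
    have h2 : Function.Injective (Matrix.GeneralLinearGroup.map (n := Fin n) e) := by
      intro x y hxy
      refine Units.ext (Matrix.ext fun a b => e.injective ?_)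
      exact congrArg (fun z : GL (Fin n) ℂ => (z : Matrix (Fin n) (Fin n) ℂ) a b) hxy
    apply h2
    rw [map_one]; exact hh
  have h3 : germHom n U (fun j : J => φ (i j)) h = 1 := congrArg Units.val h1
  have h4 : ∀ a b : Fin n, ∀ᶠ j : J in (U : Filter J),
      (φ (i j.1) h : Matrix (Fin n) (Fin n) ℂ) a b = (1 : Matrix (Fin n) (Fin n) ℂ) a b := by
    intro a b
    have h5 : ((fun j : J => (φ (i j.1) h : Matrix (Fin n) (Fin n) ℂ) a b : J → ℂ) : L) =
        ((fun _ => (1 : Matrix (Fin n) (Fin n) ℂ) a b : J → ℂ) : L) := by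
      have h6 := congrFun (congrFun h3 a) b
      refine Eq.trans h6 ?_
      by_cases hab : a = b
      · subst hab
        rw [Matrix.one_apply_eq]
        simp only [Matrix.one_apply_eq]
        rfl
      · simp only [Matrix.one_apply_ne hab]
        rfl
    exact Germ.coe_eq.mp h5
  have h7 : ∀ᶠ j : J in (U : Filter J), ∀ a b : Fin n,
      (φ (i j.1) h : Matrix (Fin n) (Fin n) ℂ) a b = (1 : Matrix (Fin n) (Fin n) ℂ) a b :=
    eventually_all.mpr fun a => eventually_all.mpr fun b => h4 a b
  obtain ⟨j, hj1, hj2⟩ := (h7.and (hU h hne)).exists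
  exact hj2 (Units.ext (Matrix.ext hj1))

end Pool.Agent.Q138.PD
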