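import Pool.Agent.Q138.PD.Lin

set_option autoImplicit false

/-!
# Groups in which nontrivial normal subgroups intersect nontrivially
-/

namespace Pool.Agent.Q138.PD

open Filter Cardinal

/-- Nontrivial normal subgroups intersect nontrivially. -/
def NI (H : Type) [Group H] : Prop :=
  ∀ A B : Subgroup H, A.Normal → B.Normal → A ⊓ B = ⊥ → A = ⊥ ∨ B = ⊥

variable {H : Type} [Group H]

/-- Finitely many normal subgroups. -/
theorem NI.finset (hNI : NI H) {ι : Type*}
    (s : Finset ι) (N : ι → Subgroup H) (hN : ∀ i, (N i).Normal) (hs : ⨅ i ∈ s, N i = ⊥)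
    [Nontrivial H] : ∃ i ∈ s, N i = ⊥ := by
  classical
  induction s using Finset.induction_on with
  | empty =>
    simp only [Finset.notMem_empty, iInf_false, iInf_top] at hs
    exact absurd hs top_ne_bot
  | insert a s ha ih =>
    rw [Finset.iInf_insert] at hs
    have : (N a).Normal := hN a
    have : (⨅ i ∈ s, N i).Normal := by
      refine Subgroup.normal_iInf_normal fun i => ?_
      exact Subgroup.normal_iInf_normal fun _ => hN i
    rcases hNI _ _ inferInstance inferInstance hs with h | h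
    · exact ⟨a, Finset.mem_insert_self _ _, h⟩
    · obtain ⟨i, hi, hi'⟩ := ih h
      exact ⟨i, Finset.mem_insert_of_mem hi, hi'⟩

/-- A jointly injective family of homomorphisms is injective along an ultrafilter. -/
theorem NI.ultra (hNI : NI H) [Nontrivial H] {I : Type*}
    {K : I → Type*} [∀ i, Group (K i)] (φ : ∀ i, H →* K i)
    (hφ : ∀ h, h ≠ 1 → ∃ i, φ i h ≠ 1) :
    ∃ U : Ultrafilter I, ∀ h, h ≠ 1 → ∀ᶠ i in (U : Filter I), φ i h ≠ 1 := by
  set F : Filter I := ⨅ h : {h : H // h ≠ 1}, 𝓟 {i | φ i h ≠ 1} with hF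
  have hne : F.NeBot := by
    have : Nonempty {h : H // h ≠ 1} := by
      obtain ⟨h, hh⟩ := exists_ne (1 : H)
      exact ⟨⟨h, hh⟩⟩
    refine iInf_neBot_of_directed' ?_ ?_
    · rintro ⟨a, ha⟩ ⟨b, hb⟩
      have h1 : (Subgroup.normalClosure {a} ⊓ Subgroup.normalClosure {b} : Subgroup H) ≠ ⊥ := by
        intro h0
        rcases hNI _ _ inferInstance inferInstance h0 with h | h
        · exact ha ((Subgroup.mem_bot).mp (h ▸ Subgroup.subset_normalClosure rfl))
        · exact hb ((Subgroup.mem_bot).mp (h ▸ Subgroup.subset_normalClosure rfl))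
      obtain ⟨c, hc⟩ := Subgroup.ne_bot_iff_exists_ne_one.mp h1
      refine ⟨⟨c, fun h => hc (Subtype.ext h)⟩, ?_, ?_⟩
      · show 𝓟 _ ≤ 𝓟 _
        rw [principal_mono]
        intro i hi hi'
        apply hi
        have h2 : Subgroup.normalClosure {a} ≤ (φ i).ker := by
          refine Subgroup.normalClosure_le_normal ?_
          rintro _ rfl
          exact hi'
        exact h2 c.2.1
      · show 𝓟 _ ≤ 𝓟 _
        rw [principal_mono]
        intro i hi hi'
        apply hi
        have h2 : Subgroup.normalClosure {b} ≤ (φ i).ker := by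
          refine Subgroup.normalClosure_le_normal ?_
          rintro _ rfl
          exact hi'
        exact h2 c.2.2
    · rintro ⟨h, hh⟩
      rw [principal_neBot_iff]
      exact hφ h hh
  refine ⟨Ultrafilter.of F, fun h hh => ?_⟩
  have h1 : F ≤ 𝓟 {i | φ i h ≠ 1} := iInf_le (fun h : {h : H // h ≠ 1} => 𝓟 {i | φ i h ≠ 1}) ⟨h, hh⟩
  exact (Ultrafilter.of_le F).trans h1 (mem_principal_self _)

/-- Linearity of residually linear groups. -/
theorem NI.linear {H : Type} [Group H] [Countable H] (hNI : NI H) (n : ℕ) {I : Type}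
    (φ : I → H →* GL (Fin n) ℂ) (hφ : ∀ h, h ≠ 1 → ∃ i, φ i h ≠ 1) :
    ∃ ψ : H →* GL (Fin n) ℂ, Function.Injective ψ := by
  classical
  rcases subsingleton_or_nontrivial H with hH | hH
  · exact ⟨1, Function.injective_of_subsingleton _⟩
  have hI : Nonempty I := by
    obtain ⟨h, hh⟩ := exists_ne (1 : H)
    exact ⟨(hφ h hh).choose⟩
  choose! i hi using hφ
  let J := {h : H // h ≠ 1}
  obtain ⟨U, hU⟩ := NI.ultra hNI (fun j : J => φ (i j)) fun h hh => ⟨⟨h, hh⟩, hi h hh⟩
  let L := (U : Filter J).Germ ℂ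
  have hcard : #L ≤ 𝔠 := by
    have h1 : #L ≤ #(J → ℂ) := mk_le_of_surjective (f := fun x : J → ℂ => (x : L)) (by
      intro x
      induction x using Germ.inductionOn with
      | h f => exact ⟨f, rfl⟩)
    refine h1.trans ?_
    rw [← power_def, mk_complex]
    calc 𝔠 ^ #J ≤ 𝔠 ^ ℵ₀ := power_le_power_left continuum_ne_zero (mk_le_aleph0)
      _ = 𝔠 := continuum_power_aleph0
  have hal : Algebra ℂ L := RingHom.toAlgebra
    ((Germ.coeRingHom (U : Filter J)).comp (Pi.constRingHom J ℂ))
  obtain ⟨e⟩ := @exists_toComplex L _ hal hcard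
  let F := (germHom n U fun j : J => φ (i j)).toHomUnits
  refine ⟨(Matrix.GeneralLinearGroup.map e).comp F, ?_⟩
  rw [injective_iff_map_eq_one]
  intro h hh
  by_contra hne
  have h1 : F h = 1 := by
    have h2 : Function.Injective (Matrix.GeneralLinearGroup.map (n := Fin n) e) := by
      intro x y hxy
      refine Units.ext (Matrix.ext fun a b => e.injective ?_)
      exact congrArg (fun z : GL (Fin n) ℂ => (z : Matrix (Fin n) (Fin n) ℂ) a b) hxy
    apply h2
    rw [map_one]; exact hh
  have h3 : germHom n U (fun j : J => φ (i j)) h = 1 := congrArg Units.val h1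
  have h4 : ∀ a b : Fin n, ∀ᶠ j : J in (U : Filter J),
      (φ (i j.1) h : Matrix (Fin n) (Fin n) ℂ) a b = (1 : Matrix (Fin n) (Fin n) ℂ) a b := by
    intro a b
    have h5 : ((fun j : J => (φ (i j.1) h : Matrix (Fin n) (Fin n) ℂ) a b : J → ℂ) : L) =
        ((fun _ => (1 : Matrix (Fin n) (Fin n) ℂ) a b : J → ℂ) : L) := by
      have h6 := congrFun (congrFun h3 a) b
      refine Eq.trans h6 ?_
      by_cases hab : a = b
      · subst hab
        rw [Matrix.one_apply_eq]
        simp only [Matrix.one_apply_eq]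
        rfl
      · simp only [Matrix.one_apply_ne hab]
        rfl
    exact Germ.coe_eq.mp h5
  have h7 : ∀ᶠ j : J in (U : Filter J), ∀ a b : Fin n,
      (φ (i j.1) h : Matrix (Fin n) (Fin n) ℂ) a b = (1 : Matrix (Fin n) (Fin n) ℂ) a b :=
    eventually_all.mpr fun a => eventually_all.mpr fun b => h4 a b
  obtain ⟨j, hj1, hj2⟩ := (h7.and (hU h hne)).exists
  exact hj2 (Units.ext (Matrix.ext hj1))

end Pool.Agent.Q138.PD
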