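import Pool.Agent.Q138.PD.NI

set_option autoImplicit false

/-!
# Residually projective linear groups
-/

namespace Pool.Agent.Q138.PD

open Filter Cardinal Matrix
open scoped MatrixGroups

theorem mem_center_of {n : ℕ} (x : GL (Fin n) ℂ) (h0 : ∀ a b : Fin n, a ≠ b → x.val a b = 0)
    (h1 : ∀ a b : Fin n, x.val a a = x.val b b) : x ∈ Subgroup.center (GL (Fin n) ℂ) := by
  rw [GeneralLinearGroup.mem_center_iff_val_mem_range_scalar]
  rcases n with _ | n
  · exact ⟨0, Matrix.ext fun a => a.elim0⟩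
  · refine ⟨x.val 0 0, Matrix.ext fun a b => ?_⟩
    rw [Matrix.scalar_apply]
    by_cases hab : a = b
    · subst hab
      rw [Matrix.diagonal_apply_eq]
      exact h1 0 a
    · rw [Matrix.diagonal_apply_ne _ hab, h0 a b hab]

theorem of_mem_center {n : ℕ} {x : GL (Fin n) ℂ} (hx : x ∈ Subgroup.center (GL (Fin n) ℂ)) :
    (∀ a b : Fin n, a ≠ b → x.val a b = 0) ∧ (∀ a b : Fin n, x.val a a = x.val b b) := by
  rw [GeneralLinearGroup.mem_center_iff_val_mem_range_scalar] at hx
  obtain ⟨c, hc⟩ := hx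
  rw [← hc]
  refine ⟨fun a b hab => ?_, fun a b => ?_⟩
  · rw [Matrix.scalar_apply, Matrix.diagonal_apply_ne _ hab]
  · rw [Matrix.scalar_apply, Matrix.diagonal_apply_eq, Matrix.diagonal_apply_eq]

section

variable {J : Type} (U : Ultrafilter J) (n : ℕ) (e : (U : Filter J).Germ ℂ →+* ℂ)

/-- From families of matrices to matrices over the ultrapower, embedded in `ℂ`. -/
noncomputable def fam : (J → GL (Fin n) ℂ) →* GL (Fin n) ℂ :=
  (Matrix.GeneralLinearGroup.map e).comp
    (germHom n U fun j : J => Pi.evalMonoidHom (fun _ : J => GL (Fin n) ℂ) j).toHomUnits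

theorem fam_apply (x : J → GL (Fin n) ℂ) (a b : Fin n) :
    (fam U n e x).val a b = e ((fun j => (x j).val a b : J → ℂ) : (U : Filter J).Germ ℂ) := rfl

theorem fam_mem_center (x : J → GL (Fin n) ℂ) : fam U n e x ∈ Subgroup.center (GL (Fin n) ℂ) ↔
    ∀ᶠ j in (U : Filter J), x j ∈ Subgroup.center (GL (Fin n) ℂ) := by
  constructor
  · intro h
    obtain ⟨h0, h1⟩ := of_mem_center h
    have k0 : ∀ᶠ j in (U : Filter J), ∀ a b : Fin n, a ≠ b → (x j).val a b = 0 := by
      refine eventually_all.mpr fun a => eventually_all.mpr fun b => ?_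
      by_cases hab : a = b
      · exact Eventually.of_forall fun j h => absurd hab h
      · have h2 := h0 a b hab
        rw [fam_apply, map_eq_zero] at h2
        have h3 : ((fun j => (x j).val a b : J → ℂ) : (U : Filter J).Germ ℂ) =
            ((fun _ => 0 : J → ℂ) : (U : Filter J).Germ ℂ) := h2
        exact (Germ.coe_eq.mp h3).mono fun j hj _ => hj
    have k1 : ∀ᶠ j in (U : Filter J), ∀ a b : Fin n, (x j).val a a = (x j).val b b := by
      refine eventually_all.mpr fun a => eventually_all.mpr fun b => ?_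
      have h2 := h1 a b
      rw [fam_apply, fam_apply] at h2
      exact Germ.coe_eq.mp (e.injective h2)
    exact (k0.and k1).mono fun j hj => mem_center_of (x j) hj.1 hj.2
  · intro h
    refine mem_center_of _ (fun a b hab => ?_) fun a b => ?_
    · rw [fam_apply]
      have h3 : ((fun j => (x j).val a b : J → ℂ) : (U : Filter J).Germ ℂ) =
          ((fun _ => 0 : J → ℂ) : (U : Filter J).Germ ℂ) :=
        Germ.coe_eq.mpr (h.mono fun j hj => (of_mem_center hj).1 a b hab)
      rw [h3]
      exact map_zero e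
    · rw [fam_apply, fam_apply]
      congr 1
      exact Germ.coe_eq.mpr (h.mono fun j hj => (of_mem_center hj).2 a b)

end

/-- Residually projective linear groups. -/
theorem NI.pgl {H : Type} [Group H] [Countable H] (hNI : NI H) (n : ℕ) {I : Type}
    (φ : I → H →* PGL(n, ℂ)) (hφ : ∀ h, h ≠ 1 → ∃ i, φ i h ≠ 1) :
    ∃ ψ : H →* PGL(n, ℂ), Function.Injective ψ := by
  classical
  rcases subsingleton_or_nontrivial H with hH | hH
  · exact ⟨1, Function.injective_of_subsingleton _⟩
  have hI : Nonempty I := by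
    obtain ⟨h, hh⟩ := exists_ne (1 : H)
    exact ⟨(hφ h hh).choose⟩
  choose! i hi using hφ
  let J := {h : H // h ≠ 1}
  obtain ⟨U, hU⟩ := NI.ultra hNI (fun j : J => φ (i j.1)) fun h hh => ⟨⟨h, hh⟩, hi h hh⟩
  let L := (U : Filter J).Germ ℂ
  have hcard : #L ≤ 𝔠 := by
    have h1 : #L ≤ #(J → ℂ) := mk_le_of_surjective (f := fun x : J → ℂ => (x : L)) (by
      intro x
      induction x using Germ.inductionOn with
      | h f => exact ⟨f, rfl⟩)
    refine h1.trans ?_
    rw [← power_def, mk_complex]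
    calc 𝔠 ^ #J ≤ 𝔠 ^ ℵ₀ := power_le_power_left continuum_ne_zero (mk_le_aleph0)
      _ = 𝔠 := continuum_power_aleph0
  have hal : Algebra ℂ L := RingHom.toAlgebra
    ((Germ.coeRingHom (U : Filter J)).comp (Pi.constRingHom J ℂ))
  obtain ⟨e⟩ := @exists_toComplex L _ hal hcard
  choose m hm using fun (h : H) (j : J) => ProjGenLinGroup.mk_surjective (φ (i j.1) h)
  let Ψ : (J → GL (Fin n) ℂ) →* PGL(n, ℂ) := ProjGenLinGroup.mk.comp (fam U n e)
  have hΨ : ∀ x : J → GL (Fin n) ℂ, Ψ x = 1 ↔
      ∀ᶠ j in (U : Filter J), ProjGenLinGroup.mk (x j) = 1 := by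
    intro x
    show ProjGenLinGroup.mk (fam U n e x) = 1 ↔ _
    rw [ProjGenLinGroup.mk_eq_one, fam_mem_center]
    exact eventually_congr (Eventually.of_forall fun j => ProjGenLinGroup.mk_eq_one.symm)
  refine ⟨MonoidHom.mk' (fun h => Ψ (m h)) fun g h => ?_, ?_⟩
  · have h1 : Ψ ((m g * m h)⁻¹ * m (g * h)) = 1 := by
      rw [hΨ]
      refine Eventually.of_forall fun j => ?_
      rw [Pi.mul_apply, Pi.inv_apply, Pi.mul_apply, map_mul, map_inv, map_mul, hm, hm, hm,
        map_mul, inv_mul_cancel]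
    rw [map_mul, map_inv, inv_mul_eq_one, map_mul] at h1
    exact h1.symm
  · rw [injective_iff_map_eq_one]
    intro h hh
    by_contra hne
    have h1 : ∀ᶠ j in (U : Filter J), ProjGenLinGroup.mk (m h j) = 1 := (hΨ _).mp hh
    obtain ⟨j, hj1, hj2⟩ := (h1.and (hU h hne)).exists
    rw [hm] at hj1
    exact hj2 hj1

end Pool.Agent.Q138.PD
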