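import Mathlib

set_option autoImplicit false

/-!
# Groups of type FP are torsion-free
-/

namespace Pool.Agent.Q138.PD

open Finset

variable {G : Type} [Group G]

/-- The action of the group element `g`. -/
noncomputable abbrev el (g : G) : MonoidAlgebra ℤ G := MonoidAlgebra.of ℤ G g

/-- The norm of `g` on the element `x`. -/
noncomputable def nm {M : Type*} [AddCommGroup M] [Module (MonoidAlgebra ℤ G) M] (g : G) (n : ℕ)
    (x : M) : M := ∑ i ∈ range n, el (g ^ i) • x

/-- Cohomological triviality of a submodule. -/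
def Ac {M : Type*} [AddCommGroup M] [Module (MonoidAlgebra ℤ G) M] (g : G) (n : ℕ)
    (S : Submodule (MonoidAlgebra ℤ G) M) : Prop :=
  (∀ x ∈ S, el g • x = x → ∃ y ∈ S, nm g n y = x) ∧
  (∀ x ∈ S, nm g n x = 0 → ∃ y ∈ S, el g • y - y = x)

theorem el_mul (g h : G) : el (g * h) = el g * el h := map_mul _ g h

theorem map_nm {M M' : Type*} [AddCommGroup M] [Module (MonoidAlgebra ℤ G) M] [AddCommGroup M']
    [Module (MonoidAlgebra ℤ G) M'] (f : M →ₗ[MonoidAlgebra ℤ G] M') (g : G) (n : ℕ) (x : M) :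
    f (nm g n x) = nm g n (f x) := by
  simp only [nm, map_sum, map_smul]

theorem nm_sub {M : Type*} [AddCommGroup M] [Module (MonoidAlgebra ℤ G) M] (g : G) (n : ℕ)
    (x y : M) : nm g n (x - y) = nm g n x - nm g n y := by
  simp only [nm, smul_sub, sum_sub_distrib]

theorem el_nm {M : Type*} [AddCommGroup M] [Module (MonoidAlgebra ℤ G) M] {g : G} {n : ℕ}
    (hg : g ^ n = 1) (x : M) : el g • nm g n x = nm g n x := by
  have h1 : ∀ i, el g • (el (g ^ i) • x) = el (g ^ (i + 1)) • x := by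
    intro i
    rw [pow_succ', el_mul, mul_smul]
  simp only [nm, smul_sum, h1]
  have h2 := sum_range_succ' (fun i => el (g ^ i) • x) n
  have h3 := sum_range_succ (fun i => el (g ^ i) • x) n
  rw [h3, hg, pow_zero] at h2
  exact (add_right_cancel h2).symm

theorem nm_el {M : Type*} [AddCommGroup M] [Module (MonoidAlgebra ℤ G) M] {g : G} {n : ℕ}
    (hg : g ^ n = 1) (x : M) : nm g n (el g • x) = nm g n x := by
  have h1 : ∀ i, (el (g ^ i) • (el g • x)) = el (g ^ (i + 1)) • x := by
    intro i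
    rw [pow_succ, el_mul, mul_smul]
  simp only [nm, h1]
  have h2 := sum_range_succ' (fun i => el (g ^ i) • x) n
  have h3 := sum_range_succ (fun i => el (g ^ i) • x) n
  rw [h3, hg, pow_zero] at h2
  exact (add_right_cancel h2).symm

theorem Ac.step {M M' : Type*} [AddCommGroup M] [Module (MonoidAlgebra ℤ G) M] [AddCommGroup M']
    [Module (MonoidAlgebra ℤ G) M'] (f : M →ₗ[MonoidAlgebra ℤ G] M') {g : G} {n : ℕ}
    (hg : g ^ n = 1) (h1 : Ac g n (⊤ : Submodule (MonoidAlgebra ℤ G) M))
    (h2 : Ac g n (LinearMap.ker f)) : Ac g n (LinearMap.range f) := by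
  constructor
  · rintro c ⟨b, rfl⟩ hc
    have k1 : el g • b - b ∈ LinearMap.ker f := by
      rw [LinearMap.mem_ker, map_sub, map_smul, hc, sub_self]
    have k2 : nm g n (el g • b - b) = 0 := by rw [nm_sub, nm_el hg, sub_self]
    obtain ⟨a, ha, hab⟩ := h2.2 _ k1 k2
    have k3 : el g • (b - a) = b - a := by
      rw [smul_sub]
      have : el g • b - el g • a - (b - a) = 0 := by
        rw [show el g • b - el g • a - (b - a) = (el g • b - b) - (el g • a - a) by abel, hab,
          sub_self]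
      exact sub_eq_zero.mp this
    obtain ⟨y, -, hy⟩ := h1.1 (b - a) trivial k3
    refine ⟨f y, ⟨y, rfl⟩, ?_⟩
    rw [← map_nm, hy, map_sub, LinearMap.mem_ker.mp ha, sub_zero]
  · rintro c ⟨b, rfl⟩ hc
    have k1 : nm g n b ∈ LinearMap.ker f := by
      rw [LinearMap.mem_ker, map_nm, hc]
    obtain ⟨a, ha, hab⟩ := h2.1 _ k1 (el_nm hg b)
    have k3 : nm g n (b - a) = 0 := by rw [nm_sub, hab, sub_self]
    obtain ⟨y, -, hy⟩ := h1.2 (b - a) trivial k3
    refine ⟨f y, ⟨y, rfl⟩, ?_⟩
    rw [← map_smul, ← map_sub, hy, map_sub, LinearMap.mem_ker.mp ha, sub_zero]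

/-- The identity is a trace. -/
def WP (M : Type*) [AddCommGroup M] [Module (MonoidAlgebra ℤ G) M] (g : G) (n : ℕ) : Prop :=
  ∃ π : M →+ M, ∀ x, ∑ i ∈ range n, el (g ^ i) • π (el (g ^ i)⁻¹ • x) = x

theorem WP.ac {M : Type*} [AddCommGroup M] [Module (MonoidAlgebra ℤ G) M] {g : G} {n : ℕ}
    (hg : g ^ n = 1) (h : WP M g n) : Ac g n (⊤ : Submodule (MonoidAlgebra ℤ G) M) := by
  obtain ⟨π, hπ⟩ := h
  constructor
  · intro x _ hx
    refine ⟨π x, trivial, ?_⟩
    have h1 : ∀ i : ℕ, el (g ^ i) • x = x := by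
      intro i
      induction i with
      | zero => rw [pow_zero, el, map_one, one_smul]
      | succ i ih => rw [pow_succ, el_mul, mul_smul, hx, ih]
    have h2 : ∀ i : ℕ, el (g ^ i)⁻¹ • x = x := by
      intro i
      conv_lhs => rw [← h1 i]
      rw [← mul_smul, ← el_mul, inv_mul_cancel, el, map_one, one_smul]
    have h3 := hπ x
    simp only [h2] at h3
    exact h3
  · intro x _ hx
    have h0 : ∑ i ∈ range n, el (g ^ i)⁻¹ • x = 0 := by
      rcases Nat.eq_zero_or_pos n with rfl | hn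
      · simp
      have h1 : nm g n x = ∑ i ∈ range n, el (g ^ i)⁻¹ • x := by
        have h4 : ∀ i ∈ range n, el (g ^ i)⁻¹ • x = el (g ^ (n - i)) • x := by
          intro i hi
          have h5 : g ^ (n - i) = (g ^ i)⁻¹ := by
            rw [eq_inv_iff_mul_eq_one, ← pow_add, Nat.sub_add_cancel (mem_range.mp hi).le, hg]
          rw [h5]
        rw [sum_congr rfl h4, nm]
        have h6 := sum_range_reflect (fun j => el (g ^ (j + 1)) • x) n
        have h7 : ∑ j ∈ range n, el (g ^ (n - 1 - j + 1)) • x = ∑ j ∈ range n,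
            el (g ^ (n - j)) • x := by
          refine sum_congr rfl fun j hj => ?_
          rw [show n - 1 - j + 1 = n - j by have := mem_range.mp hj; omega]
        rw [← h7, h6]
        have h2 := sum_range_succ' (fun i => el (g ^ i) • x) n
        have h3 := sum_range_succ (fun i => el (g ^ i) • x) n
        rw [h3, hg, pow_zero] at h2
        exact add_right_cancel h2
      rw [← h1, hx]
    have h8 : ∑ i ∈ range n, π (el (g ^ i)⁻¹ • x) = 0 := by
      rw [← map_sum, h0, map_zero]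
    have h9 : x = ∑ i ∈ range n, (el (g ^ i) • π (el (g ^ i)⁻¹ • x) - π (el (g ^ i)⁻¹ • x)) := by
      rw [sum_sub_distrib, h8, sub_zero, hπ x]
    have h10 : ∀ (i : ℕ) (z : M), ∃ y, el g • y - y = el (g ^ i) • z - z := by
      intro i z
      induction i with
      | zero => exact ⟨0, by rw [smul_zero, pow_zero, el, map_one, one_smul, sub_self, sub_self]⟩
      | succ i ih =>
        obtain ⟨y, hy⟩ := ih
        refine ⟨y + el (g ^ i) • z, ?_⟩
        rw [smul_add, ← mul_smul, ← el_mul, ← pow_succ']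
        calc _ = (el g • y - y) + (el (g ^ (i + 1)) • z - el (g ^ i) • z) := by abel
          _ = _ := by rw [hy]; abel
    choose y hy using fun i => h10 i (π (el (g ^ i)⁻¹ • x))
    refine ⟨∑ i ∈ range n, y i, trivial, ?_⟩
    rw [smul_sum, ← sum_sub_distrib, sum_congr rfl fun i _ => hy i, ← h9]

theorem WP.self {g : G} {n : ℕ} (hn : orderOf g = n) (hn0 : 0 < n) :
    WP (MonoidAlgebra ℤ G) g n := by
  classical
  obtain ⟨T, hT, -⟩ := Subgroup.exists_isComplement_right (Subgroup.zpowers g) (1 : G)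
  have key : ∀ h : G, ∃ j ∈ range n, ∀ i ∈ range n, ((g ^ i)⁻¹ * h ∈ T ↔ i = j) := by
    intro h
    obtain ⟨⟨c, t⟩, hct⟩ := hT.surjective h
    have hct' : (c : G) * (t : G) = h := hct
    have hfin : IsOfFinOrder g := by rw [← orderOf_pos_iff, hn]; exact hn0
    obtain ⟨j, hj, hj'⟩ : ∃ j ∈ range n, g ^ j = (c : G) := by
      have h1 : (c : G) ∈ Subgroup.zpowers g := c.2
      rw [hfin.mem_zpowers_iff_mem_range_orderOf, hn] at h1
      obtain ⟨j, hj, hj'⟩ := Finset.mem_image.mp h1
      exact ⟨j, hj, hj'⟩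
    refine ⟨j, hj, fun i hi => ⟨fun hi' => ?_, fun hij => ?_⟩⟩
    · have h2 : (⟨⟨g ^ i, Subgroup.pow_mem _ (Subgroup.mem_zpowers g) i⟩,
          ⟨(g ^ i)⁻¹ * h, hi'⟩⟩ : Subgroup.zpowers g × T) = ⟨c, t⟩ := by
        apply hT.injective
        show g ^ i * ((g ^ i)⁻¹ * h) = (c : G) * (t : G)
        rw [hct']; group
      have h3 : g ^ i = g ^ j := by
        rw [hj']
        exact congrArg (fun z : Subgroup.zpowers g × T => (z.1 : G)) h2
      exact pow_injOn_Iio_orderOf (by rw [hn]; exact mem_range.mp hi)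
        (by rw [hn]; exact mem_range.mp hj) h3
    · rw [hij, hj', ← hct', inv_mul_cancel_left]
      exact t.2
  let π : MonoidAlgebra ℤ G →+ MonoidAlgebra ℤ G :=
    (Finsupp.liftAddHom fun h : G => if h ∈ T then
      MonoidAlgebra.singleAddHom (R := ℤ) h else 0).comp
      (MonoidAlgebra.coeffAddEquiv (R := ℤ) (M := G)).toAddMonoidHom
  have hπ : ∀ (h : G) (a : ℤ), π (MonoidAlgebra.single h a) =
      if h ∈ T then MonoidAlgebra.single h a else 0 := by
    intro h a
    show (Finsupp.liftAddHom fun h : G => if h ∈ T then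
      MonoidAlgebra.singleAddHom (R := ℤ) h else 0) (Finsupp.single h a) = _
    rw [Finsupp.liftAddHom_apply_single]
    split_ifs <;> rfl
  refine ⟨π, fun x => ?_⟩
  induction x using MonoidAlgebra.induction_linear with
  | zero => simp
  | add a b ha hb =>
    simp only [smul_add, map_add, sum_add_distrib]
    rw [ha, hb]
  | single h a =>
    obtain ⟨j, hj, hj'⟩ := key h
    have h1 : ∀ i ∈ range n, el (g ^ i) • π (el (g ^ i)⁻¹ • MonoidAlgebra.single h a) =
        if i = j then MonoidAlgebra.single h a else 0 := by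
      intro i hi
      have h2 : el (g ^ i)⁻¹ • (MonoidAlgebra.single h a : MonoidAlgebra ℤ G) =
          MonoidAlgebra.single ((g ^ i)⁻¹ * h) a := by
        rw [el, MonoidAlgebra.of_apply, smul_eq_mul, MonoidAlgebra.single_mul_single, one_mul]
      rw [h2, hπ]
      by_cases hij : i = j
      · rw [if_pos ((hj' i hi).mpr hij), if_pos hij, el, MonoidAlgebra.of_apply, smul_eq_mul,
          MonoidAlgebra.single_mul_single, one_mul, mul_inv_cancel_left]
      · rw [if_neg (fun h3 => hij ((hj' i hi).mp h3)), if_neg hij, smul_zero]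
    rw [sum_congr rfl h1, sum_ite_eq' (range n) j, if_pos hj]

theorem WP.finsupp {M : Type*} [AddCommGroup M] [Module (MonoidAlgebra ℤ G) M] {g : G} {n : ℕ}
    (h : WP M g n) (ι : Type*) : WP (ι →₀ M) g n := by
  obtain ⟨π, hπ⟩ := h
  refine ⟨Finsupp.mapRange.addMonoidHom π, fun x => ?_⟩
  ext i
  rw [Finsupp.finsetSum_apply]
  conv_rhs => rw [← hπ (x i)]
  rfl

theorem WP.retract {M N : Type*} [AddCommGroup M] [Module (MonoidAlgebra ℤ G) M] [AddCommGroup N]
    [Module (MonoidAlgebra ℤ G) N] {g : G} {n : ℕ} (h : WP N g n)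
    (i : M →ₗ[MonoidAlgebra ℤ G] N) (r : N →ₗ[MonoidAlgebra ℤ G] M) (hr : ∀ x, r (i x) = x) :
    WP M g n := by
  obtain ⟨π, hπ⟩ := h
  refine ⟨(r : N →+ M).comp (π.comp (i : M →+ N)), fun x => ?_⟩
  have h1 : ∀ j ∈ range n, el (g ^ j) • ((r : N →+ M).comp (π.comp (i : M →+ N)))
      (el (g ^ j)⁻¹ • x) = r (el (g ^ j) • π (el (g ^ j)⁻¹ • i x)) := by
    intro j _
    show el (g ^ j) • r (π (i (el (g ^ j)⁻¹ • x))) = _
    rw [map_smul i, map_smul r]
  rw [sum_congr rfl h1, ← map_sum, hπ, hr]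

theorem ac_proj {M : Type} [AddCommGroup M] [Module (MonoidAlgebra ℤ G) M]
    [Module.Projective (MonoidAlgebra ℤ G) M] {g : G} {n : ℕ} (hn : orderOf g = n) (hn0 : 0 < n) :
    Ac g n (⊤ : Submodule (MonoidAlgebra ℤ G) M) := by
  obtain ⟨s, hs⟩ := (Module.projective_def (R := MonoidAlgebra ℤ G) (P := M)).mp inferInstance
  have h1 : WP M g n := ((WP.self hn hn0).finsupp M).retract s
    (Finsupp.linearCombination (MonoidAlgebra ℤ G) id) hs
  exact h1.ac (by rw [← hn]; exact pow_orderOf_eq_one g)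

/-- The data of a projective resolution of finite length. -/
theorem torsion_free {P : ℕ → Type} [∀ i, AddCommGroup (P i)]
    [∀ i, Module (MonoidAlgebra ℤ G) (P i)] (d : ∀ i, P (i + 1) →ₗ[MonoidAlgebra ℤ G] P i)
    (ε : P 0 →+ ℤ) (m : ℕ) (hproj : ∀ i, Module.Projective (MonoidAlgebra ℤ G) (P i))
    (hm : ∀ i, m < i → Subsingleton (P i)) (hsurj : Function.Surjective ε)
    (heq : ∀ (g : G) (x : P 0), ε (MonoidAlgebra.of ℤ G g • x) = ε x)
    (hex0 : ∀ x : P 0, ε x = 0 ↔ x ∈ LinearMap.range (d 0))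
    (hex : ∀ i, LinearMap.ker (d i) = LinearMap.range (d (i + 1))) (g : G)
    (hfin : IsOfFinOrder g) : g = 1 := by
  set n := orderOf g with hn
  have hn0 : 0 < n := hfin.orderOf_pos
  have hg : g ^ n = 1 := pow_orderOf_eq_one g
  have h1 : ∀ k i, i + k = m + 1 → Ac g n (LinearMap.range (d i)) := by
    intro k
    induction k with
    | zero =>
      intro i hi
      have h2 := hm (i + 1) (by omega)
      refine ⟨?_, ?_⟩
      · rintro _ ⟨b, rfl⟩ _
        refine ⟨0, Submodule.zero_mem _, ?_⟩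
        rw [Subsingleton.elim b 0, map_zero, nm]
        simp
      · rintro _ ⟨b, rfl⟩ _
        refine ⟨0, Submodule.zero_mem _, ?_⟩
        rw [Subsingleton.elim b 0, map_zero, smul_zero, sub_self]
    | succ k ih =>
      intro i hi
      have h2 := ih (i + 1) (by omega)
      have := hproj (i + 1)
      refine Ac.step (d i) hg (ac_proj hn.symm hn0) ?_
      rw [hex i]; exact h2
  have h3 := h1 (m + 1) 0 (by omega)
  obtain ⟨e, he⟩ := hsurj 1
  have k0 : nm g n (el g • e - e) = 0 := by rw [nm_sub, nm_el hg, sub_self]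
  have k1 : el g • e - e ∈ LinearMap.range (d 0) := by
    rw [← hex0, map_sub, heq, sub_self]
  obtain ⟨a, ha, hab⟩ := h3.2 _ k1 k0
  have k3 : el g • (e - a) = e - a := by
    rw [smul_sub]
    have : el g • e - el g • a - (e - a) = 0 := by
      rw [show el g • e - el g • a - (e - a) = (el g • e - e) - (el g • a - a) by abel, hab,
        sub_self]
    exact sub_eq_zero.mp this
  have := hproj 0
  obtain ⟨y, -, hy⟩ := (ac_proj (M := P 0) hn.symm hn0).1 (e - a) trivial k3
  have k4 : ε (nm g n y) = n * ε y := by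
    rw [nm, map_sum, sum_congr rfl fun i _ => heq (g ^ i) y, sum_const, card_range, nsmul_eq_mul]
  rw [hy, map_sub, he, (hex0 a).mpr ha, sub_zero] at k4
  have k5 : (n : ℤ) ∣ 1 := ⟨ε y, k4⟩
  have k6 : n = 1 := by
    have := Int.natAbs_dvd_natAbs.mpr k5
    simpa using this
  exact orderOf_eq_one_iff.mp (hn.symm.trans k6)

end Pool.Agent.Q138.PD
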